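import Pool.Agent.MWGR.StmtsN
import Pool.Agent.MWGR.StmtsD

/-!
# Block MWGR (problem MP_23468a_al), row NFK

Two light letters with the pattern `a..b` or `b..a`.
-/

namespace Pool.Agent.MWGR.H47

open Pool.Agent.Helper14_MV Pool.Agent.Helper2_MV Pool.Agent.MVO Pool.Agent.MWL Pool.Agent.MWS
  Pool.Agent.MWH

/-- the substitution -/
def sg (a b c : ℕ) : List ℕ := if c = a then [0] else if c = b then [1] else []

theorem flB {a b : ℕ} (l : List ℕ) (hb : b ∉ l) : l.flatMap (sg a b) = X (l.count a) := by
  induction l with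
  | nil => rfl
  | cons c l ih =>
    rw [List.mem_cons, not_or] at hb
    rw [List.flatMap_cons, ih hb.2]
    unfold sg
    by_cases h : c = a
    · rw [if_pos h, h, List.count_cons_self]
      rfl
    · rw [if_neg h, if_neg (fun h' => hb.1 h'.symm), List.count_cons_of_ne h]
      rfl

theorem flC {a b : ℕ} (l : List ℕ) (ha : a ∉ l) : l.flatMap (sg a b) = Y (l.count b) := by
  induction l with
  | nil => rfl
  | cons c l ih =>
    rw [List.mem_cons, not_or] at ha
    rw [List.flatMap_cons, ih ha.2]
    unfold sg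
    rw [if_neg (fun h' => ha.1 h'.symm)]
    by_cases h : c = b
    · rw [if_pos h, h, List.count_cons_self]
      rfl
    · rw [if_neg h, List.count_cons_of_ne h]
      rfl

theorem fl_ord (h3 : SptStmt) {a b : ℕ} (hab : a ≠ b) (l : List ℕ) (ha : l.count a = 1)
    (hb : l.count b = 1) : (cb l a b = 1 → l.flatMap (sg a b) = [0, 1]) ∧
      (cb l a b = 0 → l.flatMap (sg a b) = [1, 0]) := by
  obtain ⟨P, Q, e, hP, hQ, hc⟩ := h3 l b hb
  rw [hc a]
  have h1 : P.count a + Q.count a = 1 := by
    rw [e, List.count_append, List.count_cons_of_ne hab.symm] at ha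
    exact ha
  have h2 : l.flatMap (sg a b) = X (P.count a) ++ 1 :: X (Q.count a) := by
    rw [e, List.flatMap_append, List.flatMap_cons, flB P hP, flB Q hQ]
    have h : sg a b b = [1] := by
      unfold sg
      rw [if_neg hab.symm, if_pos rfl]
    rw [h]
    rfl
  rw [h2]
  constructor
  · intro h
    have h' : Q.count a = 0 := by omega
    rw [h, h']
    rfl
  · intro h
    have h' : Q.count a = 1 := by omega
    rw [h, h']
    rfl

/-- the map of blocks -/
def ff (i J j : ℕ) : ℕ := if j ≤ i then 0 else if j < J then 1 else 2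

theorem ff_zero {i J j : ℕ} : ff i J j = 0 ↔ j ≤ i := by
  unfold ff
  by_cases h1 : j ≤ i
  · rw [if_pos h1]
    exact ⟨fun _ => h1, fun _ => rfl⟩
  · rw [if_neg h1]
    by_cases h2 : j < J
    · rw [if_pos h2]
      omega
    · rw [if_neg h2]
      omega

theorem ff_one {i J j : ℕ} : ff i J j = 1 ↔ i < j ∧ j < J := by
  unfold ff
  by_cases h1 : j ≤ i
  · rw [if_pos h1]
    omega
  · rw [if_neg h1]
    by_cases h2 : j < J
    · rw [if_pos h2]
      omega
    · rw [if_neg h2]
      omega

theorem ff_two {i J j : ℕ} (hiJ : i < J) : ff i J j = 2 ↔ J ≤ j := by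
  unfold ff
  by_cases h1 : j ≤ i
  · rw [if_pos h1]
    omega
  · rw [if_neg h1]
    by_cases h2 : j < J
    · rw [if_pos h2]
      omega
    · rw [if_neg h2]
      omega

theorem ff_map {k i J : ℕ} : BMap k 2 (ff i J) := by
  constructor
  · intro j j' h _
    unfold ff
    split_ifs <;> omega
  · intro j _
    unfold ff
    split_ifs <;> omega

theorem form (h2 : PbiStmt) {k i J a b : ℕ} {B : ℕ → List ℕ} (hi : i ≤ k) (hiJ : i < J)
    (hJk : J ≤ k) (p1 : ∀ j < i, a ∉ B j ∧ b ∉ B j) (p2 : ∀ j, i < j → j < J → b ∉ B j)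
    (p3 : ∀ j, J ≤ j → j ≤ k → a ∉ B j) (p4 : ∃ j, i < j ∧ j < J ∧ a ∈ B j) (p5 : b ∈ B J) :
    ∃ r q, 1 ≤ r ∧ 1 ≤ q ∧ asd 0 2 (fun j => (pshB k (ff i J) B j).flatMap (sg a b)) =
      (B i).flatMap (sg a b) ++ 2 :: (X r ++ 3 :: Y q) := by
  have e0 : (pshB k (ff i J) B 0).flatMap (sg a b) = (B i).flatMap (sg a b) := by
    have hf : ff i J i = 0 := ff_zero.2 le_rfl
    have h := h2 k i (ff i J) B hi
    rw [hf] at h
    rw [h, List.flatMap_append, List.flatMap_append]
    have s1 : ((((List.range i).filter (fun j => decide (ff i J j = 0))).flatMap B).flatMap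
        (sg a b)) = [] := by
      rw [flB]
      · have : (((List.range i).filter (fun j => decide (ff i J j = 0))).flatMap B).count a = 0 := by
          rw [List.count_eq_zero, List.mem_flatMap]
          rintro ⟨j, hj, hc⟩
          rw [List.mem_filter, List.mem_range] at hj
          exact (p1 j hj.1).1 hc
        rw [this]
        rfl
      · rw [List.mem_flatMap]
        rintro ⟨j, hj, hc⟩
        rw [List.mem_filter, List.mem_range] at hj
        exact (p1 j hj.1).2 hc
    have s2 : ((List.range' (i + 1) (k - i)).filter (fun j => decide (ff i J j = 0))) = [] := by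
      rw [List.filter_eq_nil_iff]
      intro j hj hd
      rw [decide_eq_true_iff, ff_zero] at hd
      rw [List.mem_range'_1] at hj
      omega
    rw [s1, s2]
    simp
  have b1 : b ∉ pshB k (ff i J) B 1 := by
    rw [mem_pshB]
    rintro ⟨j, _, hf, hc⟩
    rw [ff_one] at hf
    exact p2 j hf.1 hf.2 hc
  have a2 : a ∉ pshB k (ff i J) B 2 := by
    rw [mem_pshB]
    rintro ⟨j, hj, hf, hc⟩
    rw [ff_two hiJ] at hf
    exact p3 j hf hj hc
  refine ⟨(pshB k (ff i J) B 1).count a, (pshB k (ff i J) B 2).count b, ?_, ?_, ?_⟩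
  · rw [Nat.succ_le_iff, List.count_pos_iff, mem_pshB]
    obtain ⟨j, h1, h2, h3⟩ := p4
    exact ⟨j, by omega, ff_one.2 ⟨h1, h2⟩, h3⟩
  · rw [Nat.succ_le_iff, List.count_pos_iff, mem_pshB]
    exact ⟨J, hJk, (ff_two hiJ).2 le_rfl, p5⟩
  · show ((pshB k (ff i J) B 0).flatMap (sg a b) ++
        2 :: (pshB k (ff i J) B 1).flatMap (sg a b)) ++
          3 :: (pshB k (ff i J) B 2).flatMap (sg a b) = _
    rw [e0, flB _ b1, flC _ a2, List.append_assoc]
    rfl

theorem behind {k i c : ℕ} {B : ℕ → List ℕ} (ok : OkB k B) (hi : i ≤ k)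
    (h : (B i).count c = 1) (hb : ∀ j < i, c ∉ B j) : ∃ j, i < j ∧ j ≤ k ∧ c ∈ B j := by
  by_contra hcon
  have hm : c ∈ B i := List.count_pos_iff.1 (by omega)
  have h2 := ok.ml i hi c hm
  unfold deg at h2
  rw [Finset.sum_eq_single i] at h2
  · omega
  · intro j hj hji
    rw [List.count_eq_zero]
    intro hc
    rw [Finset.mem_range] at hj
    rcases lt_or_gt_of_ne hji with h' | h'
    · exact hb j h' hc
    · exact hcon ⟨j, h', by omega, hc⟩
  · intro hn
    exact absurd (Finset.mem_range.2 (by omega)) hn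

theorem case1 (h1 : PslStmt) (h2 : PbiStmt) (h3 : SptStmt) (h5 : NtkStmt) {n k : ℕ} {θ : FIC}
    {B B' : ℕ → List ℕ} (hG : BG n (RR θ)) (ok : OkB k B) (ok' : OkB k B')
    (eq : MWHP.EqT n k B B') (gm : ∀ c, NS k c → MWGP.Gm k (ty B c))
    (hr : RR θ (asm k B) (asm k B')) {i a b : ℕ} (hi : i ≤ k) (hab : a ≠ b)
    (ca : (B i).count a = 1) (cb1 : (B i).count b = 1) (o : cb (B i) a b = 1)
    (o' : cb (B' i) a b = 0) (hR : Rg k B i a b) : Ka (RR θ) := by
  have na : NS k a := ok.ok i hi a (List.count_pos_iff.1 (by omega))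
  have nb : NS k b := ok.ok i hi b (List.count_pos_iff.1 (by omega))
  -- the same supports
  have sp : ∀ c, NS k c → ∀ j ≤ k, (c ∈ B j ↔ c ∈ B' j) := by
    intro c hc j hj
    rw [← List.count_pos_iff, ← List.count_pos_iff]
    rcases eq c hc j hj with h | h
    · have h' : (B j).count c = (B' j).count c := h
      rw [h']
    · have h1' : 2 ≤ (B j).count c := h.1
      have h2' : 2 ≤ (B' j).count c := h.2.1
      omega
  have on : ∀ c, NS k c → ∀ j ≤ k, (B j).count c = 1 → (B' j).count c = 1 := by
    intro c hc j hj h1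
    rcases eq c hc j hj with h | h
    · have h' : (B j).count c = (B' j).count c := h
      omega
    · have h1' : 2 ≤ (B j).count c := h.1
      omega
  have bf : ∀ c, NS k c → (B i).count c = 1 → ∀ j < i, c ∉ B j := by
    intro c hc h1 j hj hcj
    have h := gm c hc j i hj hi (by
      have : 0 < (B j).count c := List.count_pos_iff.2 hcj
      show (B j).count c ≠ 0
      omega) (by
      show (B i).count c ≠ 0
      omega)
    have h' : 2 ≤ (B i).count c := h
    omega
  obtain ⟨ja, ja1, ja2, ja3⟩ := behind ok hi ca (bf a na ca)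
  have hex : ∃ j, i < j ∧ j ≤ k ∧ b ∈ B j := behind ok hi cb1 (bf b nb cb1)
  classical
  obtain ⟨J, hJ⟩ : ∃ J, J = Nat.find hex := ⟨_, rfl⟩
  obtain ⟨iJ, Jk, bJ⟩ : i < J ∧ J ≤ k ∧ b ∈ B J := by
    rw [hJ]
    exact Nat.find_spec hex
  have hmin : ∀ j, i < j → j < J → b ∉ B j := by
    intro j h1 h2 h3
    rw [hJ] at h2
    exact Nat.find_min hex h2 ⟨h1, by have := (Nat.find_spec hex).2.1; omega, h3⟩
  have haJ : ∀ j, i < j → j ≤ k → a ∈ B j → j < J := fun j h1 h2 h3 =>
    hR J j iJ Jk h1 h2 bJ h3
  obtain ⟨r, q, hr1, hq1, e⟩ := form h2 (a := a) (b := b) (B := B) hi iJ Jk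
    (fun j hj => ⟨bf a na ca j hj, bf b nb cb1 j hj⟩) hmin
    (fun j hj hjk ha => by have := haJ j (by omega) hjk ha; omega)
    ⟨ja, ja1, haJ ja ja1 ja2 ja3, ja3⟩ bJ
  obtain ⟨r', q', hr1', hq1', e'⟩ := form h2 (a := a) (b := b) (B := B') hi iJ Jk
    (fun j hj => ⟨fun h => bf a na ca j hj ((sp a na j (by omega)).2 h),
      fun h => bf b nb cb1 j hj ((sp b nb j (by omega)).2 h)⟩)
    (fun j h1 h2 h3 => hmin j h1 h2 ((sp b nb j (by omega)).2 h3))
    (fun j hj hjk ha => by
      have := haJ j (by omega) hjk ((sp a na j hjk).2 ha)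
      omega)
    ⟨ja, ja1, haJ ja ja1 ja2 ja3, (sp a na ja ja2).1 ja3⟩ ((sp b nb J Jk).1 bJ)
  have h := h1 θ k 2 0 (ff i J) B B' (sg a b) ff_map (by have := haJ ja ja1 ja2 ja3; omega)
    ok.ok ok'.ok hr
  rw [e, e', (fl_ord h3 hab (B i) ca cb1).1 o,
    (fl_ord h3 hab (B' i) (on a na i hi ca) (on b nb i hi cb1)).2 o'] at h
  exact h5 n θ hG r r' q q' hr1 hr1' hq1 hq1' h

theorem nfk (h1 : PslStmt) (h2 : PbiStmt) (h3 : SptStmt) (_h4 : EvlStmt) (h5 : NtkStmt) :
    NfkStmt := by
  intro n k θ B B' hG F hr i a b hi hab ca cb1 o o' hR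
  rcases hR with hR | hR
  · exact case1 h1 h2 h3 h5 hG F.ok F.ok' F.eq F.gm hr hi hab ca cb1 o o' hR
  · have na : NS k a := F.ok.ok i hi a (List.count_pos_iff.1 (by omega))
    have nb : NS k b := F.ok.ok i hi b (List.count_pos_iff.1 (by omega))
    have sp : ∀ c, NS k c → ∀ j ≤ k, (c ∈ B j ↔ c ∈ B' j) := by
      intro c hc j hj
      rw [← List.count_pos_iff, ← List.count_pos_iff]
      rcases F.eq c hc j hj with h | h
      · have h' : (B j).count c = (B' j).count c := h
        rw [h']
      · have h1' : 2 ≤ (B j).count c := h.1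
        have h2' : 2 ≤ (B' j).count c := h.2.1
        omega
    have on : ∀ c, NS k c → ∀ j ≤ k, (B j).count c = 1 → (B' j).count c = 1 := by
      intro c hc j hj h1
      rcases F.eq c hc j hj with h | h
      · have h' : (B j).count c = (B' j).count c := h
        omega
      · have h1' : 2 ≤ (B j).count c := h.1
        omega
    have eq' : MWHP.EqT n k B' B := by
      intro c hc j hj
      rcases F.eq c hc j hj with h | ⟨h, h', h''⟩
      · exact Or.inl h.symm
      · exact Or.inr ⟨h', h, h''.symm⟩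
    have gm' : ∀ c, NS k c → MWGP.Gm k (ty B' c) := by
      intro c hc l j hlj hj hl hj0
      have e1 : (B l).count c ≠ 0 := by
        have hp : c ∈ B' l := List.count_pos_iff.1 (Nat.pos_of_ne_zero hl)
        have := List.count_pos_iff.2 ((sp c hc l (by omega)).2 hp)
        omega
      have e2 : (B j).count c ≠ 0 := by
        have hp : c ∈ B' j := List.count_pos_iff.1 (Nat.pos_of_ne_zero hj0)
        have := List.count_pos_iff.2 ((sp c hc j hj).2 hp)
        omega
      have h := F.gm c hc l j hlj hj e1 e2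
      have h' : 2 ≤ (B j).count c := h
      show 2 ≤ (B' j).count c
      rcases F.eq c hc j hj with h1 | h1
      · have h1' : (B j).count c = (B' j).count c := h1
        omega
      · exact h1.2.1
    -- the order of `b`, `a`
    have flip : ∀ l : List ℕ, l.count a = 1 → l.count b = 1 →
        (cb l a b = 1 → cb l b a = 0) ∧ (cb l a b = 0 → cb l b a = 1) := by
      intro l la lb
      obtain ⟨P, Q, e, hP, hQ, hc⟩ := h3 l b lb
      obtain ⟨P', Q', e2, hP', hQ', hc'⟩ := h3 l a la
      rw [hc a, hc' b]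
      have s1 : P.count a + Q.count a = 1 := by
        rw [e, List.count_append, List.count_cons_of_ne hab.symm] at la
        exact la
      have s2 : P'.count b + Q'.count b = 1 := by
        rw [e2, List.count_append, List.count_cons_of_ne hab] at lb
        exact lb
      -- the images under the substitution
      have f1 : l.flatMap (sg a b) = X (P.count a) ++ 1 :: X (Q.count a) := by
        rw [e, List.flatMap_append, List.flatMap_cons, flB P hP, flB Q hQ]
        have h : sg a b b = [1] := by
          unfold sg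
          rw [if_neg hab.symm, if_pos rfl]
        rw [h]
        rfl
      have f2 : l.flatMap (sg a b) = Y (P'.count b) ++ 0 :: Y (Q'.count b) := by
        rw [e2, List.flatMap_append, List.flatMap_cons, flC P' hP', flC Q' hQ']
        have h : sg a b a = [0] := by
          unfold sg
          rw [if_pos rfl]
        rw [h]
        rfl
      rw [f1] at f2
      constructor
      · intro h
        have h' : Q.count a = 0 := by omega
        rw [h, h'] at f2
        by_contra hn
        have h2 : P'.count b = 1 := by omega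
        have h3 : Q'.count b = 0 := by omega
        rw [h2, h3] at f2
        exact absurd f2 (by decide)
      · intro h
        have h' : Q.count a = 1 := by omega
        rw [h, h'] at f2
        by_contra hn
        have h2 : P'.count b = 0 := by omega
        have h3 : Q'.count b = 1 := by omega
        rw [h2, h3] at f2
        exact absurd f2 (by decide)
    have ca' := on a na i hi ca
    have cb' := on b nb i hi cb1
    refine case1 h1 h2 h3 h5 (B := B') (B' := B) hG F.ok' F.ok eq' gm' hr.symm hi hab.symm cb' ca'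
      ((flip (B' i) ca' cb').2 o') ((flip (B i) ca cb1).1 o) ?_
    intro j j' q1 q2 q3 q4 q5 q6
    exact hR j j' q1 q2 q3 q4 ((sp a na j q2).2 q5) ((sp b nb j' q4).2 q6)

end Pool.Agent.MWGR.H47
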