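import Pool.Agent.MWGR.StmtsD

/-!
# Block MWGR (problem MP_23468a_al), row NT2
-/

namespace Pool.Agent.MWGR.H47

open Pool.Agent.Helper14_MV Pool.Agent.Helper2_MV Pool.Agent.MVO Pool.Agent.MWL Pool.Agent.MWS
  Pool.Agent.MWH

theorem flat_rep (g : ℕ → List ℕ) (hg : g 0 = [0]) (k : ℕ) : (X k).flatMap g = X k := by
  induction k with
  | zero => rfl
  | succ k ih =>
    show (0 :: X k).flatMap g = 0 :: X k
    rw [List.flatMap_cons, ih, hg]
    rfl

theorem X_add (a b : ℕ) (l : List ℕ) : X a ++ (X b ++ l) = X (a + b) ++ l := by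
  rw [← List.append_assoc, List.replicate_append_replicate]

theorem notin (k c : ℕ) (hc : c ≠ 0) : c ∉ X k := by
  intro h
  exact hc (List.eq_of_mem_replicate h)

theorem nt2 (h1 : ExgStmt) (h2 : NtaStmt) : Nt2Stmt := by
  intro n θ hB s s' t' c c' r r' hs hst ht hc hr hr' h
  have hn := hB.pos
  have a1 : RR θ (X s ++ 1 :: 2 :: 1 :: 3 :: X c) (X s' ++ 1 :: (X t' ++ 2 :: 1 :: 3 :: X c')) := by
    refine h2 n θ hB (X s) [] (3 :: X c) (X s') (X t') (3 :: X c') 1 2 r r' hr hr' (by decide)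
      ?_ h
    intro D hD
    simp only [List.mem_cons, List.not_mem_nil, or_false] at hD
    rcases hD with rfl | rfl | rfl | rfl | rfl | rfl
    · exact ⟨notin _ _ (by decide), notin _ _ (by decide)⟩
    · simp
    · simp [List.mem_replicate]
    · exact ⟨notin _ _ (by decide), notin _ _ (by decide)⟩
    · exact ⟨notin _ _ (by decide), notin _ _ (by decide)⟩
    · simp [List.mem_replicate]
  -- insert `X n` in front of the first separator
  have a2 : RR θ (X s ++ 1 :: (X n ++ 2 :: 1 :: 3 :: X c))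
      (X s' ++ 1 :: (X (t' + n) ++ 2 :: 1 :: 3 :: X c')) := by
    obtain ⟨g, hg⟩ : ∃ g : ℕ → List ℕ, g = fun c => if c = 2 then X n ++ [2] else [c] := ⟨_, rfl⟩
    have g0 : g 0 = [0] := by rw [hg]; rfl
    have g1 : g 1 = [1] := by rw [hg]; rfl
    have g2 : g 2 = X n ++ [2] := by rw [hg]; rfl
    have g3 : g 3 = [3] := by rw [hg]; rfl
    have hs := a1.sub g
    have e1 : (X s ++ 1 :: 2 :: 1 :: 3 :: X c).flatMap g = X s ++ 1 :: (X n ++ 2 :: 1 :: 3 :: X c) := by
      rw [List.flatMap_append, List.flatMap_cons, List.flatMap_cons, List.flatMap_cons,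
        List.flatMap_cons, flat_rep g g0, flat_rep g g0, g1, g2, g3]
      simp
    have e2 : (X s' ++ 1 :: (X t' ++ 2 :: 1 :: 3 :: X c')).flatMap g =
        X s' ++ 1 :: (X (t' + n) ++ 2 :: 1 :: 3 :: X c') := by
      rw [List.flatMap_append, List.flatMap_cons, List.flatMap_append, List.flatMap_cons,
        List.flatMap_cons, List.flatMap_cons, flat_rep g g0, flat_rep g g0, flat_rep g g0, g1, g2,
        g3, ← X_add]
      simp
    rw [e1, e2] at hs
    exact hs
  have a3 : RR θ (X s' ++ 1 :: (X (t' + n) ++ 2 :: 1 :: 3 :: X c'))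
      (X s' ++ 1 :: (X t' ++ 2 :: 1 :: 3 :: X c')) := by
    have hE := h1 n θ hB (X s' ++ [1]) (2 :: 1 :: 3 :: X c') 0 (t' + n) t' (by
      unfold Nat.ModEq
      rw [Nat.add_mod_right])
    have r1 : ∀ l : List ℕ, X s' ++ [1] ++ l = X s' ++ 1 :: l := by
      intro l
      rw [List.append_assoc]
      rfl
    rw [r1, r1] at hE
    rcases Nat.eq_zero_or_pos s' with h0 | h0
    · exact hE.2.1 (by omega) (by omega)
    · refine hE.1 ?_ (by omega) ht
      rw [List.mem_append]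
      exact Or.inl (List.mem_replicate.2 ⟨by omega, rfl⟩)
  have a4 : RR θ (X s ++ 1 :: 2 :: 1 :: 3 :: X c) (X s ++ 1 :: (X n ++ 2 :: 1 :: 3 :: X c)) :=
    θ.trans a1 (θ.trans a3.symm a2.symm)
  -- the exponent in front
  have a5 : ∀ l : List ℕ, RR θ (X ((n - 1) * s + 2) ++ (X s ++ l)) (X 2 ++ l) := by
    intro l
    rw [X_add]
    have hE := h1 n θ hB [] l 0 ((n - 1) * s + 2 + s) 2 (by
      obtain ⟨m, rfl⟩ : ∃ m, n = m + 1 := ⟨n - 1, by omega⟩
      rw [Nat.add_sub_cancel]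
      unfold Nat.ModEq
      have e : m * s + 2 + s = 2 + (m + 1) * s := by ring
      rw [e, Nat.add_mul_mod_self_left])
    exact hE.2.1 (by omega) le_rfl
  have a6 : RR θ (X 2 ++ 1 :: 2 :: 1 :: 3 :: X c) (X 2 ++ 1 :: (X n ++ 2 :: 1 :: 3 :: X c)) := by
    have h3 := (RR.refl (β := θ) (X ((n - 1) * s + 2))).append a4
    exact θ.trans (a5 _).symm (θ.trans h3 (a5 _))
  -- the exponent at the end
  have a7 : ∀ p : List ℕ, 0 ∈ p → RR θ (p ++ (X c ++ X ((n - 1) * c + 1))) (p ++ [0]) := by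
    intro p hp
    have hE := h1 n θ hB p [] 0 (c + ((n - 1) * c + 1)) 1 (by
      obtain ⟨m, rfl⟩ : ∃ m, n = m + 1 := ⟨n - 1, by omega⟩
      rw [Nat.add_sub_cancel]
      unfold Nat.ModEq
      have e : c + (m * c + 1) = 1 + (m + 1) * c := by ring
      rw [e, Nat.add_mul_mod_self_left])
    have h4 := hE.1 hp (by omega) le_rfl
    rw [List.append_nil, List.append_nil] at h4
    have e : X c ++ X ((n - 1) * c + 1) = List.replicate (c + ((n - 1) * c + 1)) 0 :=
      List.replicate_append_replicate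
    rw [e]
    exact h4
  have a8 := a6.append (RR.refl (β := θ) (X ((n - 1) * c + 1)))
  have b1 := a7 [0, 0, 1, 2, 1, 3] (by simp)
  have b2 := a7 ([0, 0, 1] ++ (X n ++ [2, 1, 3])) (by simp)
  have r2 : X 2 ++ 1 :: 2 :: 1 :: 3 :: X c ++ X ((n - 1) * c + 1) =
      [0, 0, 1, 2, 1, 3] ++ (X c ++ X ((n - 1) * c + 1)) := by
    rw [List.append_assoc]
    rfl
  have r3 : X 2 ++ 1 :: (X n ++ 2 :: 1 :: 3 :: X c) ++ X ((n - 1) * c + 1) =
      [0, 0, 1] ++ (X n ++ [2, 1, 3]) ++ (X c ++ X ((n - 1) * c + 1)) := by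
    show 0 :: 0 :: 1 :: (X n ++ 2 :: 1 :: 3 :: X c ++ X ((n - 1) * c + 1)) =
      0 :: 0 :: 1 :: (X n ++ [2, 1, 3] ++ (X c ++ X ((n - 1) * c + 1)))
    rw [List.append_assoc, List.append_assoc]
    rfl
  have r4 : [0, 0, 1] ++ (X n ++ [2, 1, 3]) ++ [0] = [0, 0, 1] ++ (X n ++ [2, 1, 3, 0]) := by
    rw [List.append_assoc, List.append_assoc]
    rfl
  rw [r2, r3] at a8
  rw [r4] at b2
  exact θ.trans b1.symm (θ.trans a8 b2)

end Pool.Agent.MWGR.H47
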